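import Pool.Agent.helper19.FR.Spec

/-!
# Project FR (MP_bf63dc_nt): row STP
-/

set_option autoImplicit false

namespace Pool.Agent.FR

open Finset Real Pool.Agent.AT Pool.Agent.OM Pool.Agent.helper85.FC

theorem STP_mono {α : Type} [Fintype α] {f g : α → ℝ} (h : ∀ x, f x ≤ g x) : mean f ≤ mean g := by
  unfold mean
  exact div_le_div_of_nonneg_right (Finset.sum_le_sum fun x _ => h x) (Nat.cast_nonneg _)

theorem STP_smul {α : Type} [Fintype α] (c : ℝ) (f : α → ℝ) : c * mean f = mean fun x => c * f x := by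
  unfold mean
  rw [← Finset.mul_sum, mul_div_assoc]

theorem STP_neg {α : Type} [Fintype α] (f : α → ℝ) : -mean f = mean fun x => -f x := by
  unfold mean
  rw [Finset.sum_neg_distrib, neg_div]

theorem STP_prod {α β : Type} [Fintype α] [Fintype β] (f : α → ℝ) (g : β → ℝ) :
    mean f * mean g = mean fun x => mean fun y => f x * g y := by
  rw [mul_comm, STP_smul]
  have h : ∀ x, mean g * f x = mean fun y => f x * g y := fun x => by rw [← STP_smul, mul_comm]
  rw [funext h]

theorem STP : STP_stmt := by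
  classical
  intro ι _ _ H X a b M D l ε j i i' hH hX hl hj hε htrue
  unfold corr
  rw [STP_neg, STP_smul]
  refine STP_mono fun ξ => ?_
  rw [STP_prod, STP_smul, STP_neg]
  refine STP_mono fun m => ?_
  rw [STP_smul, STP_neg]
  refine STP_mono fun m' => ?_
  rcases hj ξ (i, m) with h1 | h1
  · rw [h1]
    simp
  rcases hj ξ (i', m') with h2 | h2
  · rw [h2]
    simp
  rw [h1, h2, mul_one, mul_one, one_mul]
  have h3 := htrue ξ m m' h1 h2
  have h4 := hε ((a : ℤ) * ((ξ (i, m) : ℕ) : ℤ) - (b : ℤ) * ((ξ (i', m') : ℕ) : ℤ))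
  unfold Bk bdp
  have h5 : bad a b M ((a : ℤ) * ((ξ (i, m) : ℕ) : ℤ) - (b : ℤ) * ((ξ (i', m') : ℕ) : ℤ)) = 0 := by
    unfold bad
    rw [if_pos h3]
  rw [h5]
  linarith

end Pool.Agent.FR
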